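import Mathlib

set_option autoImplicit false
set_option linter.unusedSectionVars false

/-!
# Every tree satisfies `ir_b(T) ≤ ir(T)`
-/

namespace Pool.Agent.Results.MP_f42b44_co.BroadcastAtMostIr

open Finset

variable {V : Type} [Fintype V] [DecidableEq V]

/-! ## Irredundance -/

/-- `w` is a private neighbour of `s` with respect to `S`: `w ∈ N[s]` and `w` lies in no `N[t]`
with `t ∈ S`, `t ≠ s`. -/
def Private (G : SimpleGraph V) (S : Finset V) (s w : V) : Prop :=
  (w = s ∨ G.Adj s w) ∧ ∀ t ∈ S, t ≠ s → ¬ (w = t ∨ G.Adj t w)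

/-- `S` is irredundant: every member has a private neighbour. -/
def Irredundant (G : SimpleGraph V) (S : Finset V) : Prop :=
  ∀ s ∈ S, ∃ w, Private G S s w

/-- `S` is maximal irredundant. -/
def MaxIrredundant (G : SimpleGraph V) (S : Finset V) : Prop :=
  Irredundant G S ∧ ∀ S' : Finset V, S ⊂ S' → ¬ Irredundant G S'

/-- the irredundance number `ir(G)`: the least size of a maximal irredundant set -/
noncomputable def ir (G : SimpleGraph V) : ℕ :=
  sInf {k : ℕ | ∃ S : Finset V, MaxIrredundant G S ∧ S.card = k}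

/-! ## Broadcasts -/

/-- the eccentricity of `v` -/
noncomputable def ecc (G : SimpleGraph V) (v : V) : ℕ := univ.sup (fun u => G.dist u v)

/-- the diameter -/
noncomputable def diam (G : SimpleGraph V) : ℕ := univ.sup (fun v => ecc G v)

/-- a broadcast: a map `V → {0, …, diam}` with `f v ≤ e(v)` -/
def IsBroadcast (G : SimpleGraph V) (f : V → ℕ) : Prop :=
  ∀ v, f v ≤ diam G ∧ f v ≤ ecc G v

/-- the cost of `f` -/
def cost (f : V → ℕ) : ℕ := ∑ v, f v

/-- `u` hears `f` from `v` -/
def Hears (G : SimpleGraph V) (f : V → ℕ) (u v : V) : Prop := 0 < f v ∧ G.dist u v ≤ f v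

/-- `f` with the value at `v` lowered by one -/
def lower (f : V → ℕ) (v : V) : V → ℕ := Function.update f v (f v - 1)

/-- the private boundary `PB_f(v)` -/
def PB (G : SimpleGraph V) (f : V → ℕ) (v : V) : Set V :=
  {u | G.dist u v ≤ f v ∧ ∀ w, ¬ Hears G (lower f v) u w}

/-- `f` is irredundant -/
def IrrBroadcast (G : SimpleGraph V) (f : V → ℕ) : Prop :=
  ∀ v, 0 < f v → (PB G f v).Nonempty

/-- `f` is a maximal irredundant broadcast -/
def MaxIrrBroadcast (G : SimpleGraph V) (f : V → ℕ) : Prop :=
  IsBroadcast G f ∧ IrrBroadcast G f ∧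
    ∀ g : V → ℕ, IsBroadcast G g → (∀ w, f w ≤ g w) → (∃ w, f w < g w) → ¬ IrrBroadcast G g

/-- the broadcast irredundance number `ir_b(G)` -/
noncomputable def irb (G : SimpleGraph V) : ℕ :=
  sInf {k : ℕ | ∃ f : V → ℕ, MaxIrrBroadcast G f ∧ cost f = k}

/-! ## Dominating broadcasts -/

/-- every vertex hears `f` -/
def Dominating (G : SimpleGraph V) (f : V → ℕ) : Prop := ∀ u, ∃ v, Hears G f u v

theorem dist_le_ecc (G : SimpleGraph V) (u v : V) : G.dist u v ≤ ecc G v :=
  Finset.le_sup (f := fun u => G.dist u v) (mem_univ u)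

theorem ecc_le_diam (G : SimpleGraph V) (v : V) : ecc G v ≤ diam G :=
  Finset.le_sup (f := fun v => ecc G v) (mem_univ v)

/-- A dominating broadcast gives a maximal irredundant broadcast that is at most as expensive. -/
theorem of_dominating (G : SimpleGraph V) (f₀ : V → ℕ) (hb₀ : IsBroadcast G f₀)
    (hd₀ : Dominating G f₀) : ∃ f, MaxIrrBroadcast G f ∧ cost f ≤ cost f₀ := by
  classical
  -- a dominating broadcast of least cost
  have hex : ∃ k : ℕ, ∃ f : V → ℕ, IsBroadcast G f ∧ Dominating G f ∧ cost f = k :=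
    ⟨cost f₀, f₀, hb₀, hd₀, rfl⟩
  obtain ⟨f, hb, hd, hc⟩ := Nat.find_spec hex
  have hmin : ∀ g : V → ℕ, IsBroadcast G g → Dominating G g → cost f ≤ cost g := by
    intro g hg hdg
    rw [hc]
    exact Nat.find_min' hex ⟨g, hg, hdg, rfl⟩
  refine ⟨f, ⟨hb, ?_, ?_⟩, hmin f₀ hb₀ hd₀⟩
  · intro v hv
    by_contra hne
    rw [Set.not_nonempty_iff_eq_empty] at hne
    have hall : ∀ u, G.dist u v ≤ f v → ∃ w, Hears G (lower f v) u w := by
      intro u hu
      by_contra hn
      have : u ∈ PB G f v := ⟨hu, fun w hw => hn ⟨w, hw⟩⟩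
      rw [hne] at this
      exact this
    have hb' : IsBroadcast G (lower f v) := by
      intro w
      by_cases hw : w = v
      · subst hw
        simp only [lower, Function.update_self]
        have := hb w
        omega
      · simp only [lower, Function.update_of_ne hw]
        exact hb w
    have hd' : Dominating G (lower f v) := by
      intro u
      obtain ⟨w, hw0, hw⟩ := hd u
      by_cases hwv : w = v
      · subst hwv
        exact hall u hw
      · exact ⟨w, by simpa [Hears, lower, Function.update_of_ne hwv] using ⟨hw0, hw⟩⟩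
    have hlt : cost (lower f v) < cost f := by
      apply Finset.sum_lt_sum
      · intro w _
        by_cases hw : w = v
        · subst hw
          simp [lower]
        · simp [lower, Function.update_of_ne hw]
      · exact ⟨v, mem_univ v, by simp only [lower, Function.update_self]; omega⟩
    exact absurd (hmin _ hb' hd') (by omega)
  · rintro g - hfg ⟨w, hw⟩ hirr
    obtain ⟨u, -, hu⟩ := hirr w (by omega)
    obtain ⟨x, hx0, hx⟩ := hd u
    refine hu x ?_
    have hle : f x ≤ lower g w x := by
      by_cases hxw : x = w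
      · subst hxw
        simp only [lower, Function.update_self]
        omega
      · simp only [lower, Function.update_of_ne hxw]
        exact hfg x
    exact ⟨by omega, by omega⟩

/-! ## Covering by balls -/

/-- `b` assigns strengths (without upper bound); `x` is covered by `b` -/
def Cov (G : SimpleGraph V) (b : V → ℕ) (x : V) : Prop := ∃ v, 0 < b v ∧ G.dist x v ≤ b v

theorem Cov.mono {G : SimpleGraph V} {b b' : V → ℕ} (h : ∀ v, b v ≤ b' v) {x : V}
    (hx : Cov G b x) : Cov G b' x := by
  obtain ⟨v, h0, h1⟩ := hx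
  exact ⟨v, h0.trans_le (h v), h1.trans (h v)⟩

/-- If `b` covers everything then some dominating broadcast costs at most `∑ b`. -/
theorem broadcast_of_cov (G : SimpleGraph V) (hG : G.Connected) (h2 : 2 ≤ Fintype.card V)
    (b : V → ℕ) (hb : ∀ x, Cov G b x) :
    ∃ f, IsBroadcast G f ∧ Dominating G f ∧ cost f ≤ ∑ v, b v := by
  refine ⟨fun v => min (b v) (ecc G v), ?_, ?_, ?_⟩
  · intro v
    exact ⟨(min_le_right _ _).trans (ecc_le_diam G v), min_le_right _ _⟩
  · intro u
    obtain ⟨v, h0, h1⟩ := hb u
    have hpos : 0 < ecc G v := by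
      obtain ⟨w, hw⟩ := Fintype.exists_ne_of_one_lt_card (by omega : 1 < Fintype.card V) v
      have : 0 < G.dist w v := hG.pos_dist_of_ne hw
      exact this.trans_le (dist_le_ecc G w v)
    exact ⟨v, lt_min h0 hpos, le_min h1 (dist_le_ecc G u v)⟩
  · exact Finset.sum_le_sum fun v _ => min_le_left _ _

/-- `u` is undominated by `S` and adding `u` would destroy the private neighbours of `s`. -/
def Kills (G : SimpleGraph V) (S : Finset V) (u s : V) : Prop :=
  (∀ t ∈ S, ¬ (u = t ∨ G.Adj t u)) ∧ ∀ w, Private G S s w → (w = u ∨ G.Adj u w)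

/-- what has to be covered on behalf of `s`: its closed neighbourhood and all vertices that kill
`s` -/
def Task (G : SimpleGraph V) (S : Finset V) (s x : V) : Prop :=
  x = s ∨ G.Adj s x ∨ Kills G S x s

/-- `A` is handled: its tasks are covered at cost at most `|A|` -/
def Handled (G : SimpleGraph V) (S A : Finset V) : Prop :=
  ∃ b : V → ℕ, ∑ v, b v ≤ A.card ∧ ∀ s ∈ A, ∀ x, Task G S s x → Cov G b x

theorem handled_union {G : SimpleGraph V} {S A B : Finset V} (hA : Handled G S A)
    (hB : Handled G S B) (hd : Disjoint A B) : Handled G S (A ∪ B) := by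
  obtain ⟨a, ha, ha'⟩ := hA
  obtain ⟨b, hb, hb'⟩ := hB
  refine ⟨fun v => a v + b v, ?_, ?_⟩
  · rw [Finset.sum_add_distrib, card_union_of_disjoint hd]
    omega
  · intro s hs x hx
    rcases mem_union.1 hs with h | h
    · exact (ha' s h x hx).mono fun v => Nat.le_add_right _ _
    · exact (hb' s h x hx).mono fun v => Nat.le_add_left _ _

/-- one ball handles `A` -/
theorem handled_ball {G : SimpleGraph V} {S A : Finset V} (c : V) (hA : A.Nonempty)
    (h : ∀ s ∈ A, ∀ x, Task G S s x → G.dist x c ≤ A.card) : Handled G S A := by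
  refine ⟨fun v => if v = c then A.card else 0, ?_, ?_⟩
  · simp
  · intro s hs x hx
    refine ⟨c, ?_, ?_⟩
    · simpa using hA.card_pos
    · simpa using h s hs x hx

/-! ## The combinatorial core -/

theorem dist_le_one {G : SimpleGraph V} {x y : V} (h : x = y ∨ G.Adj y x) : G.dist x y ≤ 1 := by
  rcases h with h | h
  · subst h
    simp
  · exact (SimpleGraph.dist_eq_one_iff_adj.2 h.symm).le

theorem task_two {G : SimpleGraph V} (hG : G.Connected) {S : Finset V} (hS : Irredundant G S)
    {s x : V} (hs : s ∈ S) (h : Task G S s x) : G.dist x s ≤ 2 := by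
  rcases h with h | h | h
  · subst h
    simp
  · exact (dist_le_one (Or.inr h)).trans (by omega)
  · obtain ⟨w, hw⟩ := hS s hs
    have h1 := h.2 w hw
    have h2 : G.dist x w ≤ 1 := by
      rcases h1 with h1 | h1
      · subst h1
        simp
      · exact (SimpleGraph.dist_eq_one_iff_adj.2 h1).le
    have h3 : G.dist w s ≤ 1 := dist_le_one hw.1
    have := hG.dist_triangle (u := x) (v := w) (w := s)
    omega

theorem task_one {G : SimpleGraph V} {S : Finset V} {s x : V} (hn : ∀ u, ¬ Kills G S u s)
    (h : Task G S s x) : G.dist x s ≤ 1 := by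
  rcases h with h | h | h
  · subst h
    simp
  · exact dist_le_one (Or.inr h)
  · exact absurd h (hn x)

/-- `A` is valid: it is handled and nobody in `S \ A` is isolated in `S \ A`. -/
def Valid (G : SimpleGraph V) (S A : Finset V) : Prop :=
  A ⊆ S ∧ Handled G S A ∧ ∀ r ∈ S \ A, ∃ t ∈ S \ A, G.Adj r t

theorem exists_valid {G : SimpleGraph V} {S : Finset V} : ∃ A, Valid G S A := by
  classical
  refine ⟨S.filter (fun s => ∀ t ∈ S, ¬ G.Adj s t), filter_subset _ _, ?_, ?_⟩
  · refine ⟨fun v => if v ∈ S.filter (fun s => ∀ t ∈ S, ¬ G.Adj s t) then 1 else 0, ?_, ?_⟩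
    · rw [Finset.sum_ite_mem]
      simp
    · intro s hs x hx
      have hs' := mem_filter.1 hs
      refine ⟨s, ?_, ?_⟩
      · simp only [if_pos hs]
        omega
      · simp only [if_pos hs]
        apply task_one (S := S) _ hx
        intro u hu
        have hp : Private G S s s := by
          refine ⟨Or.inl rfl, fun t ht hts h => ?_⟩
          rcases h with h | h
          · exact hts h.symm
          · exact hs'.2 t ht h.symm
        have h1 := hu.2 s hp
        have h2 := hu.1 s hs'.1
        rcases h1 with h1 | h1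
        · exact h2 (Or.inl h1.symm)
        · exact h2 (Or.inr h1.symm)
  · intro r hr
    rw [mem_sdiff, mem_filter] at hr
    obtain ⟨hrS, hr⟩ := hr
    have : ∃ t ∈ S, G.Adj r t := by
      by_contra hc
      exact hr ⟨hrS, fun t ht h => hc ⟨t, ht, h⟩⟩
    obtain ⟨t, ht, hrt⟩ := this
    refine ⟨t, ?_, hrt⟩
    rw [mem_sdiff, mem_filter]
    exact ⟨ht, fun h => h.2 r hrS hrt.symm⟩

/-- The core: in a connected graph without triangles and 4-cycles, a maximal irredundant set `S`
gives strengths of total cost at most `|S|` that cover everything. -/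
theorem core {G : SimpleGraph V} (hG : G.Connected)
    (hT : ∀ a b c, G.Adj a b → G.Adj b c → G.Adj c a → False)
    (hQ : ∀ a b c d, a ≠ c → b ≠ d → G.Adj a b → G.Adj b c → G.Adj c d → G.Adj d a → False)
    {S : Finset V} (hS : MaxIrredundant G S) :
    ∃ b : V → ℕ, ∑ v, b v ≤ S.card ∧ ∀ x, Cov G b x := by
  classical
  obtain ⟨hirr, hmax⟩ := hS
  -- a valid set of largest size
  obtain ⟨A₀, hA₀⟩ := exists_valid (G := G) (S := S)
  obtain ⟨A, hA, hAmax⟩ := Finset.exists_max_image (S.powerset.filter (fun A => Valid G S A)) card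
    ⟨A₀, mem_filter.2 ⟨mem_powerset.2 hA₀.1, hA₀⟩⟩
  obtain ⟨hAS, hAh, hAn⟩ := (mem_filter.1 hA).2
  have key : ∀ B : Finset V, B ⊆ S \ A → B.Nonempty → Handled G S B →
      (∀ w ∈ S \ A, w ∉ B → ∃ y ∈ S \ A, y ∉ B ∧ G.Adj w y) → False := by
    intro B hB hne hBh hrest
    have hdisj : Disjoint A B := by
      rw [Finset.disjoint_left]
      intro a ha hb
      exact (mem_sdiff.1 (hB hb)).2 ha
    have hv : Valid G S (A ∪ B) := by
      refine ⟨union_subset hAS (hB.trans sdiff_subset), handled_union hAh hBh hdisj, ?_⟩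
      intro r hr
      rw [mem_sdiff, mem_union, not_or] at hr
      obtain ⟨y, hy, hyB, hry⟩ := hrest r (mem_sdiff.2 ⟨hr.1, hr.2.1⟩) hr.2.2
      refine ⟨y, ?_, hry⟩
      rw [mem_sdiff, mem_union, not_or]
      exact ⟨(mem_sdiff.1 hy).1, (mem_sdiff.1 hy).2, hyB⟩
    have := hAmax (A ∪ B) (mem_filter.2 ⟨mem_powerset.2 hv.1, hv⟩)
    rw [card_union_of_disjoint hdisj] at this
    have := hne.card_pos
    omega
  have hRS : ∀ r ∈ S \ A, r ∈ S := fun r hr => (mem_sdiff.1 hr).1
  -- Claim 1
  have claim1 : ∀ r ∈ S \ A, ∀ r₁ ∈ S \ A, ∀ r₂ ∈ S \ A, G.Adj r r₁ → G.Adj r r₂ → r₁ = r₂ := by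
    intro r hr r₁ h₁ r₂ h₂ a₁ a₂
    by_contra hne
    set B := (S \ A).filter
      (fun z => z = r ∨ G.Adj r z ∨ ∀ y ∈ S \ A, G.Adj z y → (y = r ∨ G.Adj r y)) with hB
    have hrB : r ∈ B := mem_filter.2 ⟨hr, Or.inl rfl⟩
    have h₁B : r₁ ∈ B := mem_filter.2 ⟨h₁, Or.inr (Or.inl a₁)⟩
    have h₂B : r₂ ∈ B := mem_filter.2 ⟨h₂, Or.inr (Or.inl a₂)⟩
    have hsub3 : ({r, r₁, r₂} : Finset V) ⊆ B := by
      intro z hz
      simp only [mem_insert, mem_singleton] at hz
      rcases hz with rfl | rfl | rfl <;> assumption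
    have hcard3 : ({r, r₁, r₂} : Finset V).card = 3 :=
      card_eq_three.2 ⟨r, r₁, r₂, a₁.ne, a₂.ne, hne, rfl⟩
    have h3 : 3 ≤ B.card := hcard3 ▸ card_le_card hsub3
    apply key B (filter_subset _ _) ⟨r, hrB⟩
    · apply handled_ball r ⟨r, hrB⟩
      intro s hs x hx
      obtain ⟨hsR, hs'⟩ := mem_filter.1 hs
      have hx2 := task_two hG hirr (hRS s hsR) hx
      have htri := hG.dist_triangle (u := x) (v := s) (w := r)
      by_cases hnear : s = r ∨ G.Adj r s
      · have := dist_le_one hnear
        omega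
      · have hfar : ∀ y ∈ S \ A, G.Adj s y → (y = r ∨ G.Adj r y) := by
          rcases hs' with h | h | h
          · exact absurd (Or.inl h) hnear
          · exact absurd (Or.inr h) hnear
          · exact h
        obtain ⟨y, hy, hsy⟩ := hAn s hsR
        have hd1 : G.dist s y ≤ 1 := (SimpleGraph.dist_eq_one_iff_adj.2 hsy).le
        have hd2 : G.dist y r ≤ 1 := dist_le_one (hfar y hy hsy)
        have hd3 := hG.dist_triangle (u := s) (v := y) (w := r)
        have h4 : 4 ≤ B.card := by
          have hns : s ∉ ({r, r₁, r₂} : Finset V) := by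
            simp only [mem_insert, mem_singleton, not_or]
            refine ⟨fun h => hnear (Or.inl h), fun h => hnear (Or.inr (h ▸ a₁)),
              fun h => hnear (Or.inr (h ▸ a₂))⟩
          have : (insert s ({r, r₁, r₂} : Finset V)) ⊆ B := insert_subset hs hsub3
          have := card_le_card this
          rw [card_insert_of_notMem hns, hcard3] at this
          exact this
        omega
    · intro w hw hwB
      have hw' : ¬ (w = r ∨ G.Adj r w ∨ ∀ y ∈ S \ A, G.Adj w y → (y = r ∨ G.Adj r y)) :=
        fun h => hwB (mem_filter.2 ⟨hw, h⟩)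
      push Not at hw'
      obtain ⟨hw1, hw2, y, hy, hwy, hy1, hy2⟩ := hw'
      refine ⟨y, hy, ?_, hwy⟩
      intro hyB
      rcases (mem_filter.1 hyB).2 with h | h | h
      · exact hy1 h
      · exact hy2 h
      · rcases h w hw hwy.symm with h | h
        · exact hw1 h
        · exact hw2 h
  -- Claim 2
  have claim2 : ∀ r ∈ S \ A, ∃ u, Kills G S u r := by
    intro r hr
    by_contra hn
    push Not at hn
    obtain ⟨r', hr', hrr'⟩ := hAn r hr
    apply key {r, r'}
    · intro z hz
      simp only [mem_insert, mem_singleton] at hz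
      rcases hz with rfl | rfl <;> assumption
    · exact ⟨r, by simp⟩
    · apply handled_ball r' ⟨r, by simp⟩
      rw [card_pair hrr'.ne]
      intro s hs x hx
      simp only [mem_insert, mem_singleton] at hs
      rcases hs with rfl | rfl
      · have h1 := task_one hn hx
        have h2 : G.dist s r' ≤ 1 := (SimpleGraph.dist_eq_one_iff_adj.2 hrr').le
        have := hG.dist_triangle (u := x) (v := s) (w := r')
        omega
      · exact task_two hG hirr (hRS s hr') hx
    · intro w hw hwB
      simp only [mem_insert, mem_singleton, not_or] at hwB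
      obtain ⟨y, hy, hwy⟩ := hAn w hw
      refine ⟨y, hy, ?_, hwy⟩
      simp only [mem_insert, mem_singleton, not_or]
      constructor
      · rintro rfl
        exact hwB.2 (claim1 y hy w hw r' hr' hwy.symm hrr')
      · rintro rfl
        exact hwB.1 (claim1 y hy w hw r hr hwy.symm hrr'.symm)
  -- Claim 3
  have claim3 : ∀ r ∈ S \ A, ∀ t ∈ S \ A, ∀ c, r ≠ t → G.Adj r c → G.Adj t c → False := by
    intro r hr t ht c hrt hrc htc
    obtain ⟨r', hr', hrr'⟩ := hAn r hr
    obtain ⟨t', ht', htt'⟩ := hAn t ht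
    have n1 : r' ≠ t := by
      rintro rfl
      exact hT r r' c hrr' htc hrc.symm
    have n2 : r ≠ t' := by
      rintro rfl
      exact hT t r c htt' hrc htc.symm
    have n3 : r' ≠ t' := by
      rintro rfl
      exact hrt (claim1 r' hr' r hr t ht hrr'.symm htt'.symm)
    have hcard : ({r, r', t, t'} : Finset V).card = 4 := by
      rw [card_insert_of_notMem, card_insert_of_notMem, card_pair htt'.ne]
      · simp [n1, n3]
      · simp [hrr'.ne, hrt, n2]
    apply key {r, r', t, t'}
    · intro z hz
      simp only [mem_insert, mem_singleton] at hz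
      rcases hz with rfl | rfl | rfl | rfl <;> assumption
    · exact ⟨r, by simp⟩
    · apply handled_ball c ⟨r, by simp⟩
      rw [hcard]
      have dr : G.dist r c ≤ 1 := (SimpleGraph.dist_eq_one_iff_adj.2 hrc).le
      have dt : G.dist t c ≤ 1 := (SimpleGraph.dist_eq_one_iff_adj.2 htc).le
      have dr' : G.dist r' r ≤ 1 := (SimpleGraph.dist_eq_one_iff_adj.2 hrr'.symm).le
      have dt' : G.dist t' t ≤ 1 := (SimpleGraph.dist_eq_one_iff_adj.2 htt'.symm).le
      have e1 := hG.dist_triangle (u := r') (v := r) (w := c)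
      have e2 := hG.dist_triangle (u := t') (v := t) (w := c)
      intro s hs x hx
      have hs2 : G.dist s c ≤ 2 := by
        simp only [mem_insert, mem_singleton] at hs
        rcases hs with rfl | rfl | rfl | rfl <;> omega
      have hsS : s ∈ S := by
        simp only [mem_insert, mem_singleton] at hs
        rcases hs with rfl | rfl | rfl | rfl <;> (apply hRS; assumption)
      have := task_two hG hirr hsS hx
      have := hG.dist_triangle (u := x) (v := s) (w := c)
      omega
    · intro w hw hwB
      simp only [mem_insert, mem_singleton, not_or] at hwB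
      obtain ⟨w1, w2, w3, w4⟩ := hwB
      obtain ⟨y, hy, hwy⟩ := hAn w hw
      refine ⟨y, hy, ?_, hwy⟩
      simp only [mem_insert, mem_singleton, not_or]
      refine ⟨?_, ?_, ?_, ?_⟩
      · rintro rfl
        exact w2 (claim1 y hy w hw r' hr' hwy.symm hrr')
      · rintro rfl
        exact w1 (claim1 y hy w hw r hr hwy.symm hrr'.symm)
      · rintro rfl
        exact w4 (claim1 y hy w hw t' ht' hwy.symm htt')
      · rintro rfl
        exact w3 (claim1 y hy w hw t ht hwy.symm htt'.symm)
  -- the strengths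
  obtain ⟨bA, hbA, hbA'⟩ := hAh
  have hpn : ∀ r : V, ∃ v, r ∈ S → Private G S r v := by
    intro r
    by_cases hr : r ∈ S
    · obtain ⟨v, hv⟩ := hirr r hr
      exact ⟨v, fun _ => hv⟩
    · exact ⟨r, fun h => absurd h hr⟩
  choose p hp using hpn
  refine ⟨fun v => bA v + ((S \ A).filter (fun r => p r = v)).card, ?_, ?_⟩
  · rw [Finset.sum_add_distrib]
    have h1 : ∑ v, ((S \ A).filter (fun r => p r = v)).card = (S \ A).card :=
      (Finset.card_eq_sum_card_fiberwise (f := p) (s := S \ A) (t := univ)
        (fun x _ => mem_coe.2 (mem_univ _))).symm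
    rw [h1, card_sdiff_of_subset hAS]
    have := card_le_card hAS
    omega
  · have covA : ∀ s ∈ A, ∀ x, Task G S s x →
        Cov G (fun v => bA v + ((S \ A).filter (fun r => p r = v)).card) x := fun s hs x hx =>
      (hbA' s hs x hx).mono fun v => Nat.le_add_right _ _
    have covR : ∀ r ∈ S \ A, ∀ x, G.dist x (p r) ≤ 1 →
        Cov G (fun v => bA v + ((S \ A).filter (fun r => p r = v)).card) x := by
      intro r hr x hx
      have : 0 < ((S \ A).filter (fun r' => p r' = p r)).card :=
        card_pos.2 ⟨r, mem_filter.2 ⟨hr, rfl⟩⟩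
      exact ⟨p r, this.trans_le (Nat.le_add_left _ _),
        hx.trans (Nat.le_trans this (Nat.le_add_left _ _))⟩
    intro x
    by_cases hxS : x ∈ S
    · by_cases hxA : x ∈ A
      · exact covA x hxA x (Or.inl rfl)
      · refine covR x (mem_sdiff.2 ⟨hxS, hxA⟩) x ?_
        rw [SimpleGraph.dist_comm]
        exact dist_le_one (hp x hxS).1
    by_cases hdom : ∃ s ∈ S, G.Adj s x
    · by_cases hdomA : ∃ s ∈ A, G.Adj s x
      · obtain ⟨s, hs, hsx⟩ := hdomA
        exact covA s hs x (Or.inr (Or.inl hsx))
      · obtain ⟨s, hs, hsx⟩ := hdom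
        have hsA : s ∉ A := fun h => hdomA ⟨s, h, hsx⟩
        have hsR : s ∈ S \ A := mem_sdiff.2 ⟨hs, hsA⟩
        have hpx : Private G S s x := by
          refine ⟨Or.inr hsx, fun t ht hts h => ?_⟩
          rcases h with h | h
          · exact hxS (h ▸ ht)
          · have htA : t ∉ A := fun h' => hdomA ⟨t, h', h⟩
            exact claim3 s hsR t (mem_sdiff.2 ⟨ht, htA⟩) x (Ne.symm hts) hsx h
        obtain ⟨u, hu⟩ := claim2 s hsR
        have hus := hu.1 s hs
        have hux : G.Adj u x := by
          rcases hu.2 x hpx with h | h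
          · exact absurd (Or.inr (h ▸ hsx)) hus
          · exact h
        have hup := hu.2 (p s) (hp s hs)
        have hsp := (hp s hs).1
        have hsp' : G.Adj s (p s) := by
          rcases hsp with h | h
          · rw [h] at hup
            rcases hup with h' | h'
            · exact absurd (Or.inl h'.symm) hus
            · exact absurd (Or.inr h'.symm) hus
          · exact h
        have hup' : G.Adj u (p s) := by
          rcases hup with h | h
          · exact absurd (Or.inr (h ▸ hsp')) hus
          · exact h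
        have hxp : x = p s := by
          by_contra hne
          exact hQ s x u (p s) (fun h => hus (Or.inl h.symm)) hne hsx hux.symm hup' hsp'.symm
        refine covR s hsR x ?_
        rw [hxp]
        simp
    · -- `x` is undominated
      have hund : ∀ t ∈ S, ¬ (x = t ∨ G.Adj t x) := by
        rintro t ht (h | h)
        · exact hxS (h ▸ ht)
        · exact hdom ⟨t, ht, h⟩
      have hni := hmax (insert x S) (ssubset_insert hxS)
      unfold Irredundant at hni
      push Not at hni
      obtain ⟨s, hs, hsn⟩ := hni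
      have hsx : s ≠ x := by
        rintro rfl
        refine hsn s ⟨Or.inl rfl, fun t ht hts h => ?_⟩
        rcases mem_insert.1 ht with h' | h'
        · exact hts h'
        · exact hund t h' h
      have hsS : s ∈ S := (mem_insert.1 hs).resolve_left hsx
      have hkill : Kills G S x s := by
        refine ⟨hund, fun w hw => ?_⟩
        by_contra hc
        refine hsn w ⟨hw.1, fun t ht hts h => ?_⟩
        rcases mem_insert.1 ht with h' | h'
        · subst h'
          exact hc h
        · exact hw.2 t h' hts h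
      by_cases hsA : s ∈ A
      · exact covA s hsA x (Or.inr (Or.inr hkill))
      · refine covR s (mem_sdiff.2 ⟨hsS, hsA⟩) x ?_
        rcases hkill.2 (p s) (hp s hsS) with h | h
        · rw [h]
          simp
        · exact (SimpleGraph.dist_eq_one_iff_adj.2 h).le

/-! ## Trees -/

theorem no_triangle {G : SimpleGraph V} (hG : G.IsAcyclic) (a b c : V) (hab : G.Adj a b)
    (hbc : G.Adj b c) (hca : G.Adj c a) : False := by
  have h := SimpleGraph.isAcyclic_iff_path_unique.1 hG
    ⟨SimpleGraph.Walk.cons hab (SimpleGraph.Walk.cons hbc SimpleGraph.Walk.nil), by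
      simp [SimpleGraph.Walk.cons_isPath_iff, hab.ne, hbc.ne, hca.ne.symm]⟩
    ⟨SimpleGraph.Walk.cons hca.symm SimpleGraph.Walk.nil, by
      simp [SimpleGraph.Walk.cons_isPath_iff, hca.ne.symm]⟩
  have h' := congrArg (fun q => (Subtype.val q).length) h
  simp at h'

theorem no_square {G : SimpleGraph V} (hG : G.IsAcyclic) (a b c d : V) (hac : a ≠ c) (hbd : b ≠ d)
    (hab : G.Adj a b) (hbc : G.Adj b c) (hcd : G.Adj c d) (hda : G.Adj d a) : False := by
  have h := SimpleGraph.isAcyclic_iff_path_unique.1 hG
    ⟨SimpleGraph.Walk.cons hab (SimpleGraph.Walk.cons hbc SimpleGraph.Walk.nil), by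
      simp [SimpleGraph.Walk.cons_isPath_iff, hab.ne, hbc.ne, hac]⟩
    ⟨SimpleGraph.Walk.cons hda.symm (SimpleGraph.Walk.cons hcd.symm SimpleGraph.Walk.nil), by
      simp [SimpleGraph.Walk.cons_isPath_iff, hda.ne.symm, hcd.ne.symm, hac]⟩
  have h' := congrArg (fun q => (Subtype.val q).support) h
  simp only [SimpleGraph.Walk.support_cons, SimpleGraph.Walk.support_nil, List.cons.injEq,
    and_true, true_and] at h'
  exact hbd h'

/-- a maximal irredundant set exists -/
theorem exists_max (G : SimpleGraph V) : ∃ S : Finset V, MaxIrredundant G S := by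
  classical
  obtain ⟨S, hS, hmax⟩ := Finset.exists_max_image
    ((univ : Finset (Finset V)).filter (fun S => Irredundant G S)) card
    ⟨∅, mem_filter.2 ⟨mem_univ _, fun s hs => absurd hs (notMem_empty s)⟩⟩
  refine ⟨S, (mem_filter.1 hS).2, fun S' hSS' hS' => ?_⟩
  have := hmax S' (mem_filter.2 ⟨mem_univ _, hS'⟩)
  have := card_lt_card hSS'
  omega

/-- **Every tree with at least two vertices satisfies `ir_b(T) ≤ ir(T)`** (and both numbers are
attained, so that the infima in their definitions are minima). -/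
theorem result : ∀ (V : Type) [Fintype V] [DecidableEq V] (T : SimpleGraph V),
    T.IsTree → 2 ≤ Fintype.card V →
      (∃ S : Finset V, MaxIrredundant T S ∧ S.card = ir T) ∧
      (∃ f : V → ℕ, MaxIrrBroadcast T f ∧ cost f = irb T) ∧
      irb T ≤ ir T := by
  intro V _ _ T hT h2
  have hne : {k : ℕ | ∃ S : Finset V, MaxIrredundant T S ∧ S.card = k}.Nonempty := by
    obtain ⟨S, hS⟩ := exists_max T
    exact ⟨S.card, S, hS, rfl⟩
  have hir : ∃ S : Finset V, MaxIrredundant T S ∧ S.card = ir T := Nat.sInf_mem hne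
  obtain ⟨S, hS, hSc⟩ := hir
  obtain ⟨b, hb, hcov⟩ := core hT.1 (no_triangle hT.2) (no_square hT.2) hS
  obtain ⟨f₀, hf₀, hd₀, hc₀⟩ := broadcast_of_cov T hT.1 h2 b hcov
  obtain ⟨f, hf, hfc⟩ := of_dominating T f₀ hf₀ hd₀
  have hmem : cost f ∈ {k : ℕ | ∃ f : V → ℕ, MaxIrrBroadcast T f ∧ cost f = k} := ⟨f, hf, rfl⟩
  refine ⟨⟨S, hS, hSc⟩, Nat.sInf_mem ⟨_, hmem⟩, ?_⟩
  have : irb T ≤ cost f := Nat.sInf_le hmem
  omega

end Pool.Agent.Results.MP_f42b44_co.BroadcastAtMostIr
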